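import Mathlib

/-!
# Nonnegative `k`-sums: the equality case at `k = 2`, `n = 7`

`s k x` is the number of `k`-sets with nonnegative sum. The threshold `f k` is the least integer
such that for all `n ≥ f k` every real vector of length `n` with nonnegative sum has at least
`C(n - 1, k - 1)` nonnegative `k`-sums. We show that `f 2 ≤ 6` and that the vector
`(3, 3, 3, 3, -4, -4, -4)` has exactly `6 = C(6, 1)` nonnegative `2`-sums although its first and its
last entry have a negative sum: the conjectured description of the equality case fails for `k = 2`.
-/

set_option autoImplicit false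

namespace Pool.Agent.Results.MP_b5758b_co.EqualityAtSeven

open Finset

/-- The number of `k`-sets `S` of indices with `∑ i ∈ S, x i ≥ 0`. -/
noncomputable def s {n : ℕ} (k : ℕ) (x : Fin n → ℝ) : ℕ :=
  ((univ.powersetCard k).filter fun S : Finset (Fin n) => 0 ≤ ∑ i ∈ S, x i).card

/-- The property of the threshold: for all `n ≥ N` every vector of length `n` with nonnegative sum
has at least `C(n - 1, k - 1)` nonnegative `k`-sums. -/
def Good (k N : ℕ) : Prop :=
  ∀ n : ℕ, N ≤ n → ∀ x : Fin n → ℝ, 0 ≤ ∑ i, x i → (n - 1).choose (k - 1) ≤ s k x

/-- The threshold `f(k)`. -/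
noncomputable def f (k : ℕ) : ℕ := sInf {N | Good k N}

/-- the nonnegative pairs inside `T` -/
noncomputable def pr {ι : Type*} [DecidableEq ι] (x : ι → ℝ) (T : Finset ι) : Finset (Finset ι) :=
  (T.powersetCard 2).filter fun S => 0 ≤ ∑ i ∈ S, x i

/-- lower bound for the number of nonnegative pairs -/
def h : ℕ → ℕ
  | 0 => 0
  | 1 => 0
  | (n + 2) => min (n + 1) (h n + (n + 2) / 2)

theorem h_spec (n : ℕ) : 6 ≤ n → h n = n - 1 := by
  induction n using Nat.strong_induction_on with
  | _ n ih =>
    intro hn
    by_cases h8 : n < 8
    · interval_cases n <;> decide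
    · obtain ⟨m, rfl⟩ : ∃ m, n = m + 2 := ⟨n - 2, by omega⟩
      have := ih m (by omega) (by omega)
      rw [h, this]
      omega

theorem main {ι : Type*} [DecidableEq ι] (x : ι → ℝ) (n : ℕ) : ∀ T : Finset ι, T.card = n →
    0 ≤ ∑ i ∈ T, x i → h n ≤ (pr x T).card := by
  induction n using Nat.strong_induction_on with
  | _ n ih =>
    intro T hT hs
    match n, hT, ih with
    | 0, _, _ => simp [h]
    | 1, _, _ => simp [h]
    | (m + 2), hT, ih =>
      have hne : T.Nonempty := by rw [← card_pos]; omega
      obtain ⟨a, haT, ha⟩ := exists_max_image T x hne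
      have hne2 : (T.erase a).Nonempty := by
        rw [← card_pos, card_erase_of_mem haT]; omega
      obtain ⟨b, hbT, hb⟩ := exists_min_image (T.erase a) x hne2
      have hba : b ≠ a := ne_of_mem_erase hbT
      have hbT' : b ∈ T := mem_of_mem_erase hbT
      rw [h]
      by_cases hab : 0 ≤ x a + x b
      · refine le_trans (min_le_left _ _) ?_
        have hinj : Set.InjOn (fun i => ({a, i} : Finset ι)) (T.erase a : Finset ι) := by
          intro i hi j hj hij
          simp only at hij
          have h1 : i ∈ ({a, j} : Finset ι) := by rw [← hij]; simp
          simp only [mem_insert, mem_singleton] at h1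
          rcases h1 with h1 | h1
          · exact absurd h1 (ne_of_mem_erase hi)
          · exact h1
        have hsub : (T.erase a).image (fun i => ({a, i} : Finset ι)) ⊆ pr x T := by
          intro S hS
          rw [mem_image] at hS
          obtain ⟨i, hi, rfl⟩ := hS
          have hia : i ≠ a := ne_of_mem_erase hi
          rw [pr, mem_filter, mem_powersetCard]
          refine ⟨⟨?_, card_pair hia.symm⟩, ?_⟩
          · intro j hj
            simp only [mem_insert, mem_singleton] at hj
            rcases hj with rfl | rfl
            · exact haT
            · exact mem_of_mem_erase hi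
          · rw [sum_pair hia.symm]
            have := hb i hi
            linarith
        calc m + 1 = (T.erase a).card := by rw [card_erase_of_mem haT, hT]; omega
          _ = ((T.erase a).image (fun i => ({a, i} : Finset ι))).card :=
              (card_image_of_injOn hinj).symm
          _ ≤ _ := card_le_card hsub
      · push Not at hab
        refine le_trans (min_le_right _ _) ?_
        set T' := (T.erase a).erase b with hT'
        have hT'card : T'.card = m := by
          rw [hT', card_erase_of_mem hbT, card_erase_of_mem haT, hT]; omega
        have hsum : ∑ i ∈ T, x i = x a + (x b + ∑ i ∈ T', x i) := by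
          rw [hT', add_sum_erase _ _ hbT, add_sum_erase _ _ haT]
        have hs' : 0 ≤ ∑ i ∈ T', x i := by linarith
        have hih := ih m (by omega) T' hT'card hs'
        -- the pairs with `a`
        set Q := T'.filter fun i => 0 ≤ x a + x i with hQ
        have hxa : 0 ≤ x a := by
          by_contra hcon
          push Not at hcon
          have : ∑ i ∈ T, x i < 0 := by
            apply sum_neg (fun i hi => lt_of_le_of_lt (ha i hi) hcon) hne
          linarith
        have hQc : (m + 2) / 2 ≤ Q.card := by
          by_contra hcon
          push Not at hcon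
          have h1 : ∑ i ∈ T', x i = ∑ i ∈ Q, x i + ∑ i ∈ T'.filter (fun i => ¬ 0 ≤ x a + x i), x i :=
            (sum_filter_add_sum_filter_not _ _ _).symm
          have h2 : ∑ i ∈ Q, x i ≤ Q.card * x a := by
            rw [← nsmul_eq_mul]
            apply sum_le_card_nsmul
            intro i hi
            rw [hQ, mem_filter, hT'] at hi
            exact ha i (mem_of_mem_erase (mem_of_mem_erase hi.1))
          have h3 : ∑ i ∈ T'.filter (fun i => ¬ 0 ≤ x a + x i), x i ≤
              (T'.filter (fun i => ¬ 0 ≤ x a + x i)).card * (-x a) := by
            rw [← nsmul_eq_mul]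
            apply sum_le_card_nsmul
            intro i hi
            rw [mem_filter] at hi
            linarith [not_le.1 hi.2]
          have h4 : Q.card + (T'.filter (fun i => ¬ 0 ≤ x a + x i)).card = m := by
            rw [hQ, card_filter_add_card_filter_not, hT'card]
          have h5 : ((T'.filter (fun i => ¬ 0 ≤ x a + x i)).card : ℝ) = m - Q.card := by
            rw [eq_sub_iff_add_eq, add_comm]
            exact_mod_cast h4
          have h6 : 2 * (Q.card : ℝ) ≤ m := by
            have : 2 * Q.card ≤ m := by omega
            exact_mod_cast this
          rw [h5] at h3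
          nlinarith
        have hinj : Set.InjOn (fun i => ({a, i} : Finset ι)) (Q : Finset ι) := by
          intro i hi j hj hij
          simp only at hij
          have h1 : i ∈ ({a, j} : Finset ι) := by rw [← hij]; simp
          simp only [mem_insert, mem_singleton] at h1
          rcases h1 with h1 | h1
          · exfalso
            have hi' : i ∈ Q := hi
            rw [hQ, mem_filter, hT', mem_erase, mem_erase] at hi'
            exact hi'.1.2.1 h1
          · exact h1
        have hdisj : Disjoint (pr x T') (Q.image (fun i => ({a, i} : Finset ι))) := by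
          rw [disjoint_left]
          intro S hS1 hS2
          rw [pr, mem_filter, mem_powersetCard] at hS1
          rw [mem_image] at hS2
          obtain ⟨i, hi, rfl⟩ := hS2
          have : a ∈ T' := hS1.1.1 (by simp)
          rw [hT', mem_erase, mem_erase] at this
          exact this.2.1 rfl
        have hsub : pr x T' ∪ Q.image (fun i => ({a, i} : Finset ι)) ⊆ pr x T := by
          apply union_subset
          · intro S hS
            rw [pr, mem_filter, mem_powersetCard] at hS ⊢
            refine ⟨⟨fun j hj => ?_, hS.1.2⟩, hS.2⟩
            exact mem_of_mem_erase (mem_of_mem_erase (hS.1.1 hj))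
          · intro S hS
            rw [mem_image] at hS
            obtain ⟨i, hi, rfl⟩ := hS
            rw [hQ, mem_filter, hT', mem_erase, mem_erase] at hi
            have hia : i ≠ a := hi.1.2.1
            rw [pr, mem_filter, mem_powersetCard]
            refine ⟨⟨?_, card_pair hia.symm⟩, ?_⟩
            · intro j hj
              simp only [mem_insert, mem_singleton] at hj
              rcases hj with rfl | rfl
              · exact haT
              · exact hi.1.2.2
            · rw [sum_pair hia.symm]
              exact hi.2
        calc h m + (m + 2) / 2 ≤ (pr x T').card + Q.card := Nat.add_le_add hih hQc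
          _ = (pr x T').card + (Q.image (fun i => ({a, i} : Finset ι))).card := by
              rw [card_image_of_injOn hinj]
          _ = (pr x T' ∪ Q.image (fun i => ({a, i} : Finset ι))).card :=
              (card_union_of_disjoint hdisj).symm
          _ ≤ _ := card_le_card hsub

theorem good_two : Good 2 6 := by
  intro n hn x hx
  have := main x n univ (by simp) hx
  rw [h_spec n hn] at this
  rw [Nat.choose_one_right]
  exact this

theorem f_two_le : f 2 ≤ 6 := Nat.sInf_le good_two

/-- **The conjectured equality case of the Manickam-Miklós-Singhi inequality fails at `k = 2`,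
`n = 7`.** It is not true that for all `k ≥ 2`, all `n ≥ f(k)` and all nonincreasing real vectors
`x` of length `n` with nonnegative sum and exactly `C(n - 1, k - 1)` nonnegative `k`-sums one has
`x_1 + x_{n-k+2} + ⋯ + x_n ≥ 0` (the sum of the first entry and of the last `k - 1` entries). -/
theorem result :
    ¬ (∀ k : ℕ, 2 ≤ k → ∀ n : ℕ, f k ≤ n → ∀ x : Fin n → ℝ, Antitone x → 0 ≤ ∑ i, x i →
      s k x = (n - 1).choose (k - 1) → ∀ h0 : 0 < n,
        0 ≤ x ⟨0, h0⟩ + ∑ i ∈ univ.filter (fun i : Fin n => n - (k - 1) ≤ (i : ℕ)), x i) := by
  intro H
  have h1 := H 2 le_rfl 7 (f_two_le.trans (by norm_num)) (fun i => if (i : ℕ) < 4 then 3 else -4)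
    (by
      intro i j hij
      dsimp only
      have : (i : ℕ) ≤ j := hij
      split_ifs with h2 h3 h3
      · exact le_rfl
      · omega
      · norm_num
      · exact le_rfl)
    (by
      rw [Fin.sum_univ_seven]
      norm_num)
    (by
      have hcast : ∀ S : Finset (Fin 7), (0 ≤ ∑ i ∈ S, (if (i : ℕ) < 4 then (3 : ℝ) else -4)) ↔
          0 ≤ ∑ i ∈ S, (if (i : ℕ) < 4 then (3 : ℤ) else -4) := by
        intro S
        have : (∑ i ∈ S, (if (i : ℕ) < 4 then (3 : ℝ) else -4)) =
            ((∑ i ∈ S, (if (i : ℕ) < 4 then (3 : ℤ) else -4) : ℤ) : ℝ) := by
          push_cast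
          rfl
        rw [this]
        exact_mod_cast Iff.rfl
      unfold s
      rw [filter_congr (fun S _ => hcast S)]
      decide +kernel)
    (by norm_num)
  have h2 : (univ.filter (fun i : Fin 7 => 7 - (2 - 1) ≤ (i : ℕ))) = {6} := by decide
  rw [h2, sum_singleton] at h1
  norm_num at h1

end Pool.Agent.Results.MP_b5758b_co.EqualityAtSeven
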